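import Pool.Agent.W_d741_h93.Half
import Pool.Agent.W_d741_h93.Fin
import Pool.Agent.W_d741_h93.Trans
import Pool.Agent.W_d741r_h37.Exact
import Pool.Agent.W_d741r_h37.Exact0
import Pool.Agent.W_d741h_h9.Main

/-! MP_d741cf_al, Q1: the Artin groups of type F4 and H4 are not commensurable. -/

namespace Pool.Agent.Results.MP_d741cf_al.NotCommensurable

/-- No subgroup of finite index of the Artin group of type F4 is isomorphic to a subgroup of finite
index of the Artin group of type H4. -/
theorem result : ¬ FH.AbsCommensurable (FH.Artin FH.mF4) (FH.Artin FH.mH4) :=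
  FH.not_comm
    (FH.fHalf FK.sys (FK.sys_res (FH.ex_of_exM AG.exM) (FH.ex0_of_ex0M AG.ex0M)) FK.sys_coef)
    FHH.hHalf

end Pool.Agent.Results.MP_d741cf_al.NotCommensurable
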